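import Pool.Agent.W345.GK.Gau

set_option autoImplicit false

open Polynomial Finset

namespace Pool.Agent.W922.GK

open Pool.Agent.W345.GK

section frob

variable {k : Type} [Field k] [Fintype k]

theorem sum_pow_card {R : Type} [CommRing R] [Nontrivial R] [Algebra k R] {ι : Type}
    (s : Finset ι) (f : ι → R) (m : ℕ) :
    (∑ i ∈ s, f i) ^ (Fintype.card k ^ m) = ∑ i ∈ s, f i ^ (Fintype.card k ^ m) := by
  obtain ⟨p, hp⟩ := CharP.exists k
  obtain ⟨n, hpr, hn⟩ := FiniteField.card k p
  have := Fact.mk hpr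
  have : CharP R p := charP_of_injective_algebraMap (algebraMap k R).injective p
  rw [hn, ← pow_mul]
  exact sum_pow_char_pow p _ s f

theorem sub_pow_card {R : Type} [CommRing R] [Nontrivial R] [Algebra k R] (x y : R) :
    (x - y) ^ (Fintype.card k) = x ^ (Fintype.card k) - y ^ (Fintype.card k) := by
  obtain ⟨p, hp⟩ := CharP.exists k
  obtain ⟨n, hpr, hn⟩ := FiniteField.card k p
  have := Fact.mk hpr
  have : CharP R p := charP_of_injective_algebraMap (algebraMap k R).injective p
  rw [hn]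
  exact sub_pow_char_pow x y _

theorem card_pos' : 0 < Fintype.card k := Fintype.card_pos

theorem one_lt_q : 1 < Fintype.card k := Fintype.one_lt_card

end frob

section D

variable {k F : Type} [Field k] [Fintype k] [Field F] [Algebra k F]

theorem Dt_succ (τ : F) (s : ℕ) : Dt (Fintype.card k) τ (s + 1) =
    (τ ^ (Fintype.card k ^ (s + 1)) - τ) * (Dt (Fintype.card k) τ s) ^ Fintype.card k := by
  unfold Dt
  rw [prod_range_succ', pow_zero, pow_one, mul_comm, ← prod_pow]
  congr 1
  refine prod_congr rfl fun l _ => ?_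
  rw [sub_pow_card (k := k), ← pow_mul, ← pow_mul, ← pow_succ, ← pow_succ]

theorem Dt_ne (τ : F) (d : ℕ) (hinj : ∀ i < d, ∀ j < d,
    τ ^ (Fintype.card k ^ i) = τ ^ (Fintype.card k ^ j) → i = j) (s : ℕ) (hs : s < d) :
    Dt (Fintype.card k) τ s ≠ 0 := by
  unfold Dt
  rw [prod_ne_zero_iff]
  intro l hl
  rw [mem_range] at hl
  rw [sub_ne_zero]
  intro h
  have := hinj s hs l (hl.trans hs) h
  omega

theorem iD (τ : F) (d : ℕ) (hinj : ∀ i < d, ∀ j < d,
    τ ^ (Fintype.card k ^ i) = τ ^ (Fintype.card k ^ j) → i = j) (s : ℕ) (hs : s + 1 < d) :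
    (τ ^ (Fintype.card k ^ (s + 1)) - τ) * (Dt (Fintype.card k) τ (s + 1))⁻¹ =
      ((Dt (Fintype.card k) τ s)⁻¹) ^ Fintype.card k := by
  have h1 := Dt_ne (k := k) τ d hinj (s + 1) hs
  have h2 := Dt_ne (k := k) τ d hinj s (by omega)
  have h3 := Dt_succ (k := k) τ s
  have h4 : (τ ^ (Fintype.card k ^ (s + 1)) - τ) ≠ 0 := by
    intro h
    rw [h, zero_mul] at h3
    exact h1 h3
  rw [h3, inv_pow]
  field_simp

/-- `l_m`, the value of the derivative of `[P,m]` at `τ` -/
noncomputable def ll (P : k[X]) (τ : F) (m : ℕ) : F := aeval τ (derivative (br P m))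

theorem q_zero : ((Fintype.card k : ℕ) : k) = 0 := FiniteField.cast_card_eq_zero k

theorem ll_rec (h1 : S_C1) (h2 : S_C2) (P : k[X]) (hP : P.Monic) (hI : Irreducible P) (τ : F)
    (ht : aeval τ P = 0) (m : ℕ) (hm : m + 1 < P.natDegree) :
    (τ ^ (Fintype.card k ^ (m + 1)) - τ) * ll P τ (m + 1) = - ll P τ m := by
  have h := (h1 k).2.2.1 P m
  have hd := congrArg (fun f => aeval τ (derivative f)) h
  obtain ⟨c, hc⟩ := h2 k P hP hI (m + 1) hm
  have h0 : aeval τ (br P (m + 1)) = 0 := by rw [hc, map_mul, ht, zero_mul]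
  have hq : (C ((Fintype.card k : ℕ) : k) : k[X]) = 0 := by rw [q_zero, C_0]
  have hq' : (C (((Fintype.card k ^ (m + 1) : ℕ)) : k) : k[X]) = 0 := by
    rw [Nat.cast_pow, q_zero, zero_pow (by omega), C_0]
  simp only [derivative_mul, derivative_sub, derivative_X_pow, derivative_X, derivative_pow,
    hq, hq', zero_mul, zero_sub, map_add, map_mul, map_neg, map_sub, map_pow, aeval_X, map_one,
    h0, mul_zero, zero_add, neg_zero] at hd
  simpa [ll] using hd

theorem conv_zero (h1 : S_C1) (h2 : S_C2) (P : k[X]) (hP : P.Monic) (hI : Irreducible P) (τ : F)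
    (ht : aeval τ P = 0) (hinj : ∀ i < P.natDegree, ∀ j < P.natDegree,
    τ ^ (Fintype.card k ^ i) = τ ^ (Fintype.card k ^ j) → i = j) (j : ℕ) (hj : 0 < j)
    (hjd : j < P.natDegree) :
    ∑ m ∈ range (j + 1), ll P τ m * ((Dt (Fintype.card k) τ (j - m))⁻¹) ^ (Fintype.card k ^ m) = 0 := by
  set q := Fintype.card k with hq
  have hne : τ ^ (q ^ j) - τ ≠ 0 := by
    rw [sub_ne_zero]
    intro h
    have := hinj j hjd 0 (by omega) (by simpa using h)
    omega
  have hA : ∀ m, m < j → ((Dt q τ (j - m))⁻¹) ^ (q ^ m) * (τ ^ (q ^ j) - τ ^ (q ^ m)) =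
      ((Dt q τ (j - (m + 1)))⁻¹) ^ (q ^ (m + 1)) := by
    intro m hm
    obtain ⟨s, hs⟩ : ∃ s, j = m + (s + 1) := ⟨j - m - 1, by omega⟩
    subst hs
    have e1 : m + (s + 1) - m = s + 1 := by omega
    have e2 : m + (s + 1) - (m + 1) = s := by omega
    rw [e1, e2]
    have h := iD (k := k) τ P.natDegree hinj s (by omega)
    have h' := congrArg (fun x => x ^ (q ^ m)) h
    rw [← hq, mul_pow, ← pow_mul ((Dt q τ s)⁻¹), ← pow_succ'] at h'
    rw [← h', mul_comm]
    congr 1
    have := sum_pow_card (k := k) (R := F) (univ : Finset (Fin 2))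
      (fun i => if i = 0 then τ ^ (q ^ (s + 1)) else -τ) m
    simp only [Fin.sum_univ_two, Fin.isValue, if_true, one_ne_zero, if_false] at this
    rw [← sub_eq_add_neg] at this
    rw [← hq] at this
    rw [this, ← pow_mul, ← pow_add, add_comm (s + 1) m]
    have h3 : (-τ) ^ (q ^ m) = - (τ ^ (q ^ m)) := by
      have := sum_pow_card (k := k) (R := F) (univ : Finset (Fin 2))
        (fun i => if i = 0 then τ else -τ) m
      simp only [Fin.sum_univ_two, Fin.isValue, if_true, one_ne_zero, if_false] at this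
      rw [← hq, add_neg_cancel, zero_pow (pow_ne_zero _ card_pos'.ne')] at this
      linear_combination -this
    rw [h3]
    ring
  have hB : ∀ m, m + 1 ≤ j → ll P τ (m + 1) * (τ ^ (q ^ (m + 1)) - τ) = - ll P τ m := by
    intro m hm
    have := ll_rec h1 h2 P hP hI τ ht m (by omega)
    linear_combination this
  have key : (τ ^ (q ^ j) - τ) * ∑ m ∈ range (j + 1),
      ll P τ m * ((Dt q τ (j - m))⁻¹) ^ (q ^ m) = 0 := by
    have e : (τ ^ (q ^ j) - τ) * ∑ m ∈ range (j + 1),
        ll P τ m * ((Dt q τ (j - m))⁻¹) ^ (q ^ m) =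
        ∑ m ∈ range (j + 1), ll P τ m * (((Dt q τ (j - m))⁻¹) ^ (q ^ m) *
          (τ ^ (q ^ j) - τ ^ (q ^ m))) +
        ∑ m ∈ range (j + 1), (ll P τ m * (τ ^ (q ^ m) - τ)) * ((Dt q τ (j - m))⁻¹) ^ (q ^ m) := by
      rw [mul_sum, ← sum_add_distrib]
      refine sum_congr rfl fun m _ => ?_
      ring
    rw [e, sum_range_succ, sum_range_succ' (fun m => (ll P τ m * (τ ^ (q ^ m) - τ)) *
      ((Dt q τ (j - m))⁻¹) ^ (q ^ m))]
    have e1 : ∑ m ∈ range j, ll P τ m * (((Dt q τ (j - m))⁻¹) ^ (q ^ m) *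
          (τ ^ (q ^ j) - τ ^ (q ^ m))) =
        ∑ m ∈ range j, ll P τ m * ((Dt q τ (j - (m + 1)))⁻¹) ^ (q ^ (m + 1)) :=
      sum_congr rfl fun m hm => by rw [hA m (mem_range.1 hm)]
    have e2 : ∑ m ∈ range j, (ll P τ (m + 1) * (τ ^ (q ^ (m + 1)) - τ)) *
          ((Dt q τ (j - (m + 1)))⁻¹) ^ (q ^ (m + 1)) =
        - ∑ m ∈ range j, ll P τ m * ((Dt q τ (j - (m + 1)))⁻¹) ^ (q ^ (m + 1)) := by
      rw [← sum_neg_distrib]
      refine sum_congr rfl fun m hm => ?_
      rw [hB m (mem_range.1 hm)]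
      ring
    rw [e1, e2]
    simp
  exact (mul_eq_zero.1 key).resolve_left hne

/-- the truncated exponential -/
noncomputable def EE (q d : ℕ) (τ : F) : PowerSeries F :=
  ∑ s ∈ range d, PowerSeries.C ((Dt q τ s)⁻¹) * PowerSeries.X ^ (q ^ s)

/-- the truncated exponential divided by the variable -/
noncomputable def uu (q d : ℕ) (τ : F) : PowerSeries F :=
  ∑ s ∈ range d, PowerSeries.C ((Dt q τ s)⁻¹) * PowerSeries.X ^ (q ^ s - 1)

/-- the value of `xi` at the point `τ` -/
noncomputable def xt (P : k[X]) (τ : F) (w : PowerSeries F) : PowerSeries F :=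
  ∑ m ∈ range P.natDegree, PowerSeries.C (ll P τ m) * w ^ (Fintype.card k ^ m - 1)

omit [Field k] [Fintype k] [Algebra k F] in
theorem EE_eq (q d : ℕ) (hq : 0 < q) (τ : F) : EE q d τ = PowerSeries.X * uu q d τ := by
  unfold EE uu
  rw [mul_sum]
  refine sum_congr rfl fun s _ => ?_
  have : 0 < q ^ s := pow_pos hq s
  conv_lhs => rw [← Nat.sub_add_cancel this, pow_succ]
  ring

omit [Field k] [Fintype k] [Algebra k F] in
theorem bet_eq (q d : ℕ) (τ : F) : bet q d τ = (uu q d τ)⁻¹ := by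
  unfold bet uu
  congr 1
  refine sum_congr rfl fun s _ => ?_
  ext n
  rw [PowerSeries.coeff_monomial, PowerSeries.coeff_C_mul_X_pow]

omit [Field k] [Fintype k] [Algebra k F] in
theorem uu_cc (q d : ℕ) (hq : 1 < q) (hd : 0 < d) (τ : F) :
    PowerSeries.constantCoeff (uu q d τ) = 1 := by
  unfold uu
  rw [map_sum, sum_eq_single 0]
  · simp [Dt]
  · intro s _ hs
    have h1 : q ^ 1 ≤ q ^ s := Nat.pow_le_pow_right (by omega) (by omega)
    rw [pow_one] at h1
    have h2 : q ^ s - 1 ≠ 0 := by omega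
    simp [h2]
  · intro h
    exact absurd (mem_range.2 hd) h

theorem EE_pow (τ : F) (d m : ℕ) : EE (Fintype.card k) d τ ^ (Fintype.card k ^ m) =
    ∑ s ∈ range d, PowerSeries.C (((Dt (Fintype.card k) τ s)⁻¹) ^ (Fintype.card k ^ m)) *
      PowerSeries.X ^ (Fintype.card k ^ (m + s)) := by
  unfold EE
  rw [sum_pow_card (k := k) (R := PowerSeries F)]
  refine sum_congr rfl fun s _ => ?_
  rw [mul_pow, ← map_pow, ← pow_mul, ← pow_add, add_comm]

theorem main_dvd (h1 : S_C1) (h2 : S_C2) (P : k[X]) (hP : P.Monic) (hI : Irreducible P) (τ : F)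
    (ht : aeval τ P = 0) (hinj : ∀ i < P.natDegree, ∀ j < P.natDegree,
    τ ^ (Fintype.card k ^ i) = τ ^ (Fintype.card k ^ j) → i = j) (hd : 0 < P.natDegree) :
    (PowerSeries.X : PowerSeries F) ^ (Fintype.card k ^ P.natDegree) ∣
      (∑ m ∈ range P.natDegree, PowerSeries.C (ll P τ m) *
        EE (Fintype.card k) P.natDegree τ ^ (Fintype.card k ^ m)) -
      PowerSeries.C (ll P τ 0) * PowerSeries.X := by
  rw [PowerSeries.X_pow_dvd_iff]
  intro n hn
  set q := Fintype.card k with hq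
  have hq1 : 1 < q := one_lt_q
  set d := P.natDegree with hdd
  have e1 : PowerSeries.coeff n (∑ m ∈ range d, PowerSeries.C (ll P τ m) *
        EE q d τ ^ (q ^ m)) = ∑ m ∈ range d, ∑ s ∈ range d,
        if n = q ^ (m + s) then ll P τ m * ((Dt q τ s)⁻¹) ^ (q ^ m) else 0 := by
    rw [map_sum]
    refine sum_congr rfl fun m _ => ?_
    rw [PowerSeries.coeff_C_mul, EE_pow (k := k), map_sum, mul_sum]
    refine sum_congr rfl fun s _ => ?_
    rw [PowerSeries.coeff_C_mul_X_pow, mul_ite, mul_zero]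
  rw [map_sub, e1, PowerSeries.coeff_C_mul, PowerSeries.coeff_X, sub_eq_zero]
  by_cases hn' : ∃ j, n = q ^ j
  · obtain ⟨j, rfl⟩ := hn'
    have hjd : j < d := (Nat.pow_lt_pow_iff_right hq1).1 hn
    have e2 : ∀ m ∈ range d, (∑ s ∈ range d,
        if q ^ j = q ^ (m + s) then ll P τ m * ((Dt q τ s)⁻¹) ^ (q ^ m) else 0) =
        if m < j + 1 then ll P τ m * ((Dt q τ (j - m))⁻¹) ^ (q ^ m) else 0 := by
      intro m _
      split_ifs with hm
      · rw [sum_eq_single (j - m)]
        · rw [if_pos]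
          congr 1
          omega
        · intro s _ hs
          rw [if_neg]
          intro h
          have := Nat.pow_right_injective hq1 h
          omega
        · intro h
          exact absurd (mem_range.2 (by omega)) h
      · refine sum_eq_zero fun s _ => ?_
        rw [if_neg]
        intro h
        have := Nat.pow_right_injective hq1 h
        omega
    rw [sum_congr rfl e2, ← sum_filter]
    have e3 : (range d).filter (fun m => m < j + 1) = range (j + 1) := by
      ext m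
      simp only [mem_filter, mem_range]
      omega
    rw [e3]
    rcases Nat.eq_zero_or_pos j with hj | hj
    · subst hj
      simp [Dt]
    · rw [conv_zero h1 h2 P hP hI τ ht hinj j hj hjd, if_neg, mul_zero]
      intro h
      have h' : q ^ j = q ^ 0 := by rw [h, pow_zero]
      have := Nat.pow_right_injective hq1 h'
      omega
  · rw [if_neg, mul_zero]
    · refine sum_eq_zero fun m _ => sum_eq_zero fun s _ => ?_
      rw [if_neg]
      exact fun h => hn' ⟨_, h⟩
    · intro h
      exact hn' ⟨0, by rw [h, pow_zero]⟩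

theorem xt_dvd (h1 : S_C1) (h2 : S_C2) (P : k[X]) (hP : P.Monic) (hI : Irreducible P) (τ : F)
    (ht : aeval τ P = 0) (hinj : ∀ i < P.natDegree, ∀ j < P.natDegree,
    τ ^ (Fintype.card k ^ i) = τ ^ (Fintype.card k ^ j) → i = j) (hd : 0 < P.natDegree) :
    (PowerSeries.X : PowerSeries F) ^ (Fintype.card k ^ P.natDegree - 1) ∣
      xt P τ (EE (Fintype.card k) P.natDegree τ) -
        PowerSeries.C (ll P τ 0) * bet (Fintype.card k) P.natDegree τ := by
  obtain ⟨c, hc⟩ := main_dvd h1 h2 P hP hI τ ht hinj hd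
  set q := Fintype.card k with hq
  have hq1 : 1 < q := one_lt_q
  set d := P.natDegree with hdd
  have hQ : 0 < q ^ d := pow_pos (by omega) d
  have hX : (PowerSeries.X : PowerSeries F) ≠ 0 := PowerSeries.X_ne_zero
  have e1 : (∑ m ∈ range d, PowerSeries.C (ll P τ m) * EE q d τ ^ (q ^ m)) =
      xt P τ (EE q d τ) * (PowerSeries.X * uu q d τ) := by
    rw [← EE_eq q d (by omega) τ]
    unfold xt
    rw [sum_mul]
    refine sum_congr rfl fun m _ => ?_
    have : 0 < q ^ m := pow_pos (by omega) m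
    conv_lhs => rw [← Nat.sub_add_cancel this, pow_succ]
    ring
  have hu : uu q d τ * bet q d τ = 1 := by
    rw [bet_eq]
    apply PowerSeries.mul_inv_cancel
    rw [uu_cc q d hq1 hd]
    exact one_ne_zero
  have e2 : xt P τ (EE q d τ) * uu q d τ - PowerSeries.C (ll P τ 0) =
      PowerSeries.X ^ (q ^ d - 1) * c := by
    apply mul_left_cancel₀ hX
    have : (PowerSeries.X : PowerSeries F) ^ (q ^ d) = PowerSeries.X ^ (q ^ d - 1) * PowerSeries.X := by
      rw [← pow_succ, Nat.sub_add_cancel hQ]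
    rw [e1, this] at hc
    linear_combination hc
  refine ⟨c * bet q d τ, ?_⟩
  linear_combination (bet q d τ) * e2 - xt P τ (EE q d τ) * hu

end D


/-! ### Index bookkeeping -/

theorem mod_a (d i j : ℕ) (hi : i < d) : (i + (j + (d - i)) % d) % d = j % d := by
  rw [Nat.add_mod, Nat.mod_mod, ← Nat.add_mod]
  have : i + (j + (d - i)) = j + d := by omega
  rw [this, Nat.add_mod_right]

theorem mod_b (d i s : ℕ) (hi : i < d) : ((i + s) % d + (d - i)) % d = s % d := by
  rw [Nat.add_mod, Nat.mod_mod, ← Nat.add_mod]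
  have : i + s + (d - i) = s + d := by omega
  rw [this, Nat.add_mod_right]

theorem reindex {M : Type} [AddCommMonoid M] (d i : ℕ) (hi : i < d) (h : ℕ → M) :
    ∑ j ∈ range d, h ((j + (d - i)) % d) = ∑ s ∈ range d, h s := by
  have hd : 0 < d := by omega
  refine sum_nbij' (fun j => (j + (d - i)) % d) (fun s => (i + s) % d) ?_ ?_ ?_ ?_ ?_
  · intro j _
    exact mem_range.2 (Nat.mod_lt _ hd)
  · intro j _
    exact mem_range.2 (Nat.mod_lt _ hd)
  · intro j hj
    have hj := mem_range.1 hj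
    change (i + (j + (d - i)) % d) % d = j
    rw [mod_a d i j hi, Nat.mod_eq_of_lt hj]
  · intro s hs
    have hs := mem_range.1 hs
    change ((i + s) % d + (d - i)) % d = s
    rw [mod_b d i s hi, Nat.mod_eq_of_lt hs]
  · intro j _
    rfl

theorem dig_sum (q κ d : ℕ) : κ % q ^ d = ∑ j ∈ range d, dig q κ j * q ^ j := by
  induction d with
  | zero => simp [Nat.mod_one]
  | succ d ih =>
    rw [sum_range_succ, ← ih, Nat.mod_pow_succ]
    unfold dig
    ring

theorem geo (q d : ℕ) (hq : 0 < q) : (∑ s ∈ range d, (q - 1) * q ^ s) + 1 = q ^ d := by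
  obtain ⟨r, rfl⟩ : ∃ r, q = r + 1 := ⟨q - 1, by omega⟩
  induction d with
  | zero => simp
  | succ d ih =>
    rw [sum_range_succ, pow_succ, ← ih]
    simp only [Nat.add_sub_cancel] at ih ⊢
    ring

theorem nn_lt (q d κ i : ℕ) (hq : 1 < q) (hi : i < d) (hκ : κ < q ^ d - 1) :
    nn q d κ i < q ^ d - 1 := by
  have hg := geo q d (by omega)
  have hle : ∀ j, dig q κ j ≤ q - 1 := fun j => by
    unfold dig
    have := Nat.mod_lt (κ / q ^ j) (show q > 0 by omega)
    omega
  have hex : ∃ s ∈ range d, dig q κ ((i + s) % d) < q - 1 := by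
    by_contra hcon
    push Not at hcon
    have hall : ∀ j ∈ range d, dig q κ j * q ^ j = (q - 1) * q ^ j := by
      intro j hj
      have hj := mem_range.1 hj
      have h1 := hcon ((j + (d - i)) % d) (mem_range.2 (Nat.mod_lt _ (by omega)))
      rw [mod_a d i j hi, Nat.mod_eq_of_lt hj] at h1
      rw [le_antisymm (hle j) h1]
    have h2 := dig_sum q κ d
    rw [sum_congr rfl hall, Nat.mod_eq_of_lt (by omega)] at h2
    omega
  have : nn q d κ i < ∑ s ∈ range d, (q - 1) * q ^ s := by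
    unfold nn
    apply sum_lt_sum
    · intro s _
      exact Nat.mul_le_mul_right _ (hle _)
    · obtain ⟨s, hs, h⟩ := hex
      exact ⟨s, hs, Nat.mul_lt_mul_of_pos_right h (pow_pos (by omega) s)⟩
  omega

/-! ### The truncated ring -/

/-- power series modulo `z^Q` -/
def SS (F : Type) [Field F] (Q : ℕ) : Type :=
  PowerSeries F ⧸ (Ideal.span {(PowerSeries.X : PowerSeries F) ^ Q})

noncomputable instance (F : Type) [Field F] (Q : ℕ) : CommRing (SS F Q) :=
  inferInstanceAs (CommRing (PowerSeries F ⧸ (Ideal.span {(PowerSeries.X : PowerSeries F) ^ Q})))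

/-- the projection -/
noncomputable def pr (F : Type) [Field F] (Q : ℕ) : PowerSeries F →+* SS F Q :=
  Ideal.Quotient.mk (Ideal.span {(PowerSeries.X : PowerSeries F) ^ Q})

theorem pr_eq (F : Type) [Field F] (Q : ℕ) (a b : PowerSeries F) :
    pr F Q a = pr F Q b ↔ (PowerSeries.X : PowerSeries F) ^ Q ∣ a - b := by
  unfold pr
  rw [← Ideal.mem_span_singleton]
  exact Ideal.Quotient.eq

/-- evaluation at `τ` -/
@[reducible] noncomputable def alg {F : Type} [Field F] (Q : ℕ) (τ : F) : Algebra F[X] (SS F Q) :=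
  ((pr F Q).comp ((PowerSeries.C (R := F)).comp (evalRingHom τ))).toAlgebra

theorem rescale_C' {F : Type} [Field F] (α c : F) :
    PowerSeries.rescale α (PowerSeries.C c) = PowerSeries.C c := by
  ext n
  rw [PowerSeries.coeff_rescale, PowerSeries.coeff_C]
  split_ifs with h
  · rw [h, pow_zero, one_mul]
  · rw [mul_zero]

section final

variable {k F : Type} [Field k] [Fintype k] [Field F] [Algebra k F]

theorem aeval_xi (P : k[X]) (τ : F) (Q : ℕ) (y : PowerSeries F) :
    letI := alg Q τ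
    aeval (pr F Q y) (xi P : (F[X])[X]) = pr F Q (xt P τ y) := by
  letI := alg Q τ
  have ha : ∀ f : F[X], algebraMap F[X] (SS F Q) f = pr F Q (PowerSeries.C (eval τ f)) :=
    fun f => rfl
  unfold xi xt
  rw [map_sum, map_sum]
  refine sum_congr rfl fun m _ => ?_
  rw [map_mul, map_pow, aeval_X, aeval_C, ha, map_mul, map_pow]
  congr 3
  unfold ll
  rw [eval_map_algebraMap]

theorem xt_rescale (P : k[X]) (τ α : F) (w : PowerSeries F) :
    xt P τ (PowerSeries.rescale α w) = PowerSeries.rescale α (xt P τ w) := by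
  unfold xt
  rw [map_sum]
  refine sum_congr rfl fun m _ => ?_
  rw [map_mul, map_pow, rescale_C']

theorem rescale_EE (q d : ℕ) (τ α : F) : PowerSeries.rescale α (EE q d τ) =
    ∑ s ∈ range d, PowerSeries.C (α ^ (q ^ s)) *
      (PowerSeries.C ((Dt q τ s)⁻¹) * PowerSeries.X ^ (q ^ s)) := by
  unfold EE
  rw [map_sum]
  refine sum_congr rfl fun s _ => ?_
  rw [map_mul, map_pow, rescale_C', PowerSeries.rescale_X, mul_pow, ← map_pow]
  ring

end final

theorem k4 : S_C1 → S_C2 → S_C3 → S_K4 := by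
  intro h1 h2 h3 k F _ _ _ _ P θ κ g hP hI hθ hκ0 hκ _ hg i hi hbet
  obtain ⟨c1, c2, -, c4, -, -⟩ := h3 k F P θ hP hI hθ
  set q := Fintype.card k with hq
  have hq1 : 1 < q := one_lt_q
  set d := P.natDegree with hd
  set τ := θ ^ q ^ i with hτdef
  have hd0 : 0 < d := by omega
  have hτ : aeval τ P = 0 := by
    rw [hτdef, c4, hθ, zero_pow (pow_ne_zero _ (by omega))]
  obtain ⟨t1, t2, -, t4, -, -⟩ := h3 k F P τ hP hI hτ
  rw [← hq, ← hd] at t1 t2
  rw [← hq] at t4
  have hQ : 0 < q ^ d := pow_pos (by omega) d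
  -- periodicity
  have per : ∀ m, θ ^ q ^ (m + d) = θ ^ q ^ m := by
    intro m
    rw [pow_add, mul_comm, pow_mul, c1]
  have perm : ∀ m n, θ ^ q ^ (m + d * n) = θ ^ q ^ m := by
    intro m n
    induction n with
    | zero => simp
    | succ n ih => rw [mul_add, mul_one, ← add_assoc, per, ih]
  have permod : ∀ m, θ ^ q ^ (m % d) = θ ^ q ^ m := by
    intro m
    conv_rhs => rw [← Nat.mod_add_div m d]
    rw [perm]
  have tq : ∀ s, τ ^ q ^ s = θ ^ q ^ (i + s) := by
    intro s
    rw [hτdef, ← pow_mul, ← pow_add]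
  have tsg : ∀ j, τ ^ q ^ ((j + (d - i)) % d) = θ ^ q ^ j := by
    intro j
    rw [tq, ← permod, mod_a d i j hi, permod]
  -- the Gauss system
  set G' : ℕ → PowerSeries F := fun j =>
    PowerSeries.C ((Dt q τ ((j + (d - i)) % d))⁻¹) * PowerSeries.X ^ (q ^ ((j + (d - i)) % d)) with hG'
  letI := alg (q ^ d) τ
  have ha : ∀ f : F[X], algebraMap F[X] (SS F (q ^ d)) f = pr F (q ^ d) (PowerSeries.C (eval τ f)) :=
    fun f => rfl
  have hGS : IsGS (S := SS F (q ^ d)) q d θ (fun j => pr F (q ^ d) (G' j)) := by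
    constructor
    · intro j
      rw [ha]
      simp only [eval_sub, eval_C, eval_X]
      rw [← map_pow, ← map_mul]
      set s := (j + (d - i)) % d with hs
      have hsd : s < d := Nat.mod_lt _ hd0
      have hth : θ ^ q ^ (j + 1) = τ ^ q ^ (s + 1) := by
        rw [pow_succ q j, pow_mul, ← tsg j, ← pow_mul, ← pow_succ]
      have hs1 : (j + 1 + (d - i)) % d = (s + 1) % d := by
        have : j + 1 + (d - i) = (j + (d - i)) + 1 := by omega
        rw [this, Nat.add_mod, ← hs]
        conv_rhs => rw [Nat.add_mod, Nat.mod_eq_of_lt hsd]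
      rw [hth]
      rcases Nat.lt_or_ge (s + 1) d with hlt | hge
      · congr 1
        simp only [hG', ← hs, hs1, Nat.mod_eq_of_lt hlt]
        have h := iD (k := k) τ d t2 s hlt
        rw [← hq] at h
        rw [mul_pow, ← map_pow, ← h, ← pow_mul (PowerSeries.X : PowerSeries F), ← pow_succ q s,
          map_mul, mul_assoc]
      · have hsd1 : s + 1 = d := by omega
        rw [hsd1, t1, sub_self, map_zero, zero_mul, pr_eq, sub_zero]
        simp only [hG', ← hs]
        rw [mul_pow, ← pow_mul (PowerSeries.X : PowerSeries F), ← pow_succ q s, hsd1]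
        exact Dvd.intro_left _ rfl
    · intro j
      simp only [hG']
      have : (j + d + (d - i)) % d = (j + (d - i)) % d := by
        have : j + d + (d - i) = (j + (d - i)) + d := by omega
        rw [this, Nat.add_mod_right]
      rw [this]
  have hU := hg (SS F (q ^ d)) (fun j => pr F (q ^ d) (G' j)) hGS
  -- the left side
  have hE : ∀ a : Fin d → k, (∑ j ∈ range d,
      algebraMap F[X] (SS F (q ^ d)) (C (aeval (θ ^ q ^ j) (pol a))) * pr F (q ^ d) (G' j)) =
      pr F (q ^ d) (PowerSeries.rescale (aeval τ (pol a)) (EE q d τ)) := by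
    intro a
    rw [rescale_EE, ← reindex d i hi (fun s => PowerSeries.C ((aeval τ (pol a)) ^ (q ^ s)) *
      (PowerSeries.C ((Dt q τ s)⁻¹) * PowerSeries.X ^ (q ^ s))), map_sum]
    refine sum_congr rfl fun j _ => ?_
    rw [ha, eval_C, ← map_mul, ← tsg j, t4]
  have hL : (- ∑ a : Fin d → k, algebraMap F[X] (SS F (q ^ d)) (C (rho d θ κ (pol a))) *
      aeval (∑ j ∈ range d,
        algebraMap F[X] (SS F (q ^ d)) (C (aeval (θ ^ q ^ j) (pol a))) * pr F (q ^ d) (G' j))
          (xi P : (F[X])[X])) =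
      pr F (q ^ d) (- ∑ a : Fin d → k, PowerSeries.C (rho d θ κ (pol a)) *
        PowerSeries.rescale (aeval τ (pol a)) (xt P τ (EE q d τ))) := by
    rw [map_neg, map_sum]
    congr 1
    refine sum_congr rfl fun a _ => ?_
    rw [hE, ha, eval_C, map_mul, ← xt_rescale]
    congr 1
    exact aeval_xi P τ (q ^ d) _
  have hR : (algebraMap F[X] (SS F (q ^ d)) g * ∏ j ∈ range d, pr F (q ^ d) (G' j) ^ dig q κ j) =
      pr F (q ^ d) (PowerSeries.C (eval τ g) * (PowerSeries.C (∏ j ∈ range d,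
        ((Dt q τ ((j + (d - i)) % d))⁻¹) ^ dig q κ j) * PowerSeries.X ^ nn q d κ i)) := by
    rw [ha, map_mul]
    congr 1
    have e1 : ∏ j ∈ range d, pr F (q ^ d) (G' j) ^ dig q κ j =
        pr F (q ^ d) (∏ j ∈ range d, G' j ^ dig q κ j) := by
      rw [map_prod]
      refine prod_congr rfl fun j _ => ?_
      rw [map_pow]
    rw [e1]
    congr 1
    simp only [hG', mul_pow]
    rw [prod_mul_distrib, map_prod]
    congr 1
    · exact prod_congr rfl fun j _ => by rw [map_pow]
    have e2 : nn q d κ i = ∑ j ∈ range d, q ^ ((j + (d - i)) % d) * dig q κ j := by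
      unfold nn
      rw [← reindex d i hi (fun s => dig q κ ((i + s) % d) * q ^ s)]
      refine sum_congr rfl fun j hj => ?_
      rw [mod_a d i j hi, Nat.mod_eq_of_lt (mem_range.1 hj), mul_comm]
    rw [e2, ← prod_pow_eq_pow_sum]
    refine prod_congr rfl fun j _ => ?_
    rw [← pow_mul]
  have hU' := hU
  rw [hL, hR, pr_eq, PowerSeries.X_pow_dvd_iff] at hU'
  have hn := nn_lt q d κ i hq1 hi hκ
  have h5 := hU' (nn q d κ i) (by omega)
  have h6 : PowerSeries.coeff (nn q d κ i) (xt P τ (EE q d τ)) = 0 := by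
    have h7 := xt_dvd h1 h2 P hP hI τ hτ t2 hd0
    rw [← hq, ← hd, PowerSeries.X_pow_dvd_iff] at h7
    have h8 := h7 _ hn
    rw [map_sub, PowerSeries.coeff_C_mul, hbet, mul_zero, sub_zero] at h8
    exact h8
  rw [map_sub, map_neg, map_sum, sum_eq_zero, neg_zero, zero_sub, neg_eq_zero,
    PowerSeries.coeff_C_mul, PowerSeries.coeff_C_mul_X_pow, if_pos rfl] at h5
  · refine (mul_eq_zero.1 h5).resolve_right (prod_ne_zero_iff.2 ?_)
    intro j _
    exact pow_ne_zero _ (inv_ne_zero (Dt_ne (k := k) τ d t2 _ (Nat.mod_lt _ hd0)))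
  · intro a _
    rw [PowerSeries.coeff_C_mul, PowerSeries.coeff_rescale, h6, mul_zero, mul_zero]

end Pool.Agent.W922.GK
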